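import Mathlib
import Pool.Agent.Helper53.JB.Defs

/-!
# JB-1: the Jacobian determinants of algebraically dependent polynomials vanish

`jac U I = det (∂_{I b} (U i))`, `b, i : Fin r`.

Proof of `jac_eq_zero`. There is `Q ≠ 0` in `MvPolynomial (Fin r) ℂ` with `aeval U Q = 0`; take such a `Q` of
least total degree. `Q` is not a constant (`aeval U (C c) = C c ≠ 0`), so by characteristic `0` some
`pderiv i Q ≠ 0` (a monomial of `Q` with `μ i ≠ 0`: `coeff` of `pderiv i Q` at `μ - single i 1` is
`μ i * coeff μ Q`), and `totalDegree (pderiv i Q) < totalDegree Q`, so `v i := aeval U (pderiv i Q) ≠ 0` by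
minimality. Chain rule: `0 = pderiv c (aeval U Q) = ∑ i, aeval U (pderiv i Q) * pderiv c (U i)`
(both sides are derivations in `Q` along `aeval U`: induction on `Q` with `MvPolynomial.induction_on`).
So the matrix `(pderiv (I b) (U i))_{b, i}` kills the vector `v ≠ 0`: `Matrix.exists_mulVec_eq_zero_iff`.
-/

namespace JB

open MvPolynomial

/-- Chain rule. -/
theorem pderiv_aeval {n r : ℕ} (U : Fin r → MvPolynomial (Fin n) ℂ) (Q : MvPolynomial (Fin r) ℂ)
    (c : Fin n) : pderiv c (aeval U Q) = ∑ i, aeval U (pderiv i Q) * pderiv c (U i) := by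
  classical
  induction Q using MvPolynomial.induction_on with
  | C a =>
    have h1 : aeval U (C a : MvPolynomial (Fin r) ℂ) = C a := by
      rw [aeval_C]
      rfl
    rw [h1, pderiv_C]
    symm
    refine Finset.sum_eq_zero fun i _ => ?_
    rw [pderiv_C, map_zero, zero_mul]
  | add p q hp hq =>
    rw [map_add, map_add, hp, hq, ← Finset.sum_add_distrib]
    refine Finset.sum_congr rfl fun i _ => ?_
    rw [map_add, map_add, add_mul]
  | mul_X p j hp =>
    have h1 : ∀ i, aeval U (pderiv i (p * X j)) * pderiv c (U i) =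
        aeval U (pderiv i p) * pderiv c (U i) * U j +
          (if i = j then aeval U p * pderiv c (U i) else 0) := by
      intro i
      rw [pderiv_mul, map_add, map_mul, map_mul, aeval_X]
      by_cases hij : i = j
      · subst hij
        rw [pderiv_X_self, if_pos rfl, map_one]
        ring
      · rw [pderiv_X_of_ne (Ne.symm hij), if_neg hij, map_zero]
        ring
    rw [Finset.sum_congr rfl fun i _ => h1 i, Finset.sum_add_distrib, Finset.sum_ite_eq',
      if_pos (Finset.mem_univ j), map_mul, aeval_X, pderiv_mul, hp, Finset.sum_mul]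

private theorem dp_exists {r : ℕ} {Q : MvPolynomial (Fin r) ℂ} (hQ : ∀ c : ℂ, Q ≠ C c) :
    ∃ i, pderiv i Q ≠ 0 := by
  by_contra hcon
  push Not at hcon
  refine hQ (coeff 0 Q) ?_
  ext μ
  rw [coeff_C]
  by_cases hμ : 0 = μ
  · rw [if_pos hμ, ← hμ]
  · rw [if_neg hμ]
    obtain ⟨i, hi⟩ : ∃ i, μ i ≠ 0 := by
      by_contra h2
      push Not at h2
      exact hμ (by ext i; rw [h2 i]; rfl)
    have h3 := coeff_pderiv (i := i) Q (μ - Finsupp.single i 1)
    have h4 : μ - Finsupp.single i 1 + Finsupp.single i 1 = μ := by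
      refine tsub_add_cancel_of_le ?_
      rw [Finsupp.single_le_iff]
      omega
    rw [hcon i, coeff_zero, h4] at h3
    rcases mul_eq_zero.1 h3.symm with h5 | h5
    · exact h5
    · exfalso
      exact Nat.cast_add_one_ne_zero _ h5

private theorem dp_degree {r : ℕ} {Q : MvPolynomial (Fin r) ℂ} {i : Fin r}
    (hi : pderiv i Q ≠ 0) : (pderiv i Q).totalDegree < Q.totalDegree := by
  have h1 : ∀ m ∈ (pderiv i Q).support, (m.sum fun _ e => e) + 1 ≤ Q.totalDegree := by
    intro m hm
    rw [mem_support_iff, coeff_pderiv] at hm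
    have h2 : m + Finsupp.single i 1 ∈ Q.support := mem_support_iff.2 (left_ne_zero_of_mul hm)
    have h3 := le_totalDegree h2
    rw [Finsupp.sum_add_index' (fun _ => rfl) (fun _ _ _ => rfl),
      Finsupp.sum_single_index rfl] at h3
    exact h3
  obtain ⟨m, hm⟩ := support_nonempty.2 hi
  have h2 := h1 m hm
  have h3 : (pderiv i Q).totalDegree ≤ Q.totalDegree - 1 := by
    rw [totalDegree]
    refine Finset.sup_le fun m' hm' => ?_
    have := h1 m' hm'
    omega
  omega

theorem jac_eq_zero {n r : ℕ} {U : Fin r → MvPolynomial (Fin n) ℂ}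
    (h : ¬ AlgebraicIndependent ℂ U) (I : Fin r → Fin n) : jac U I = 0 := by
  classical
  rw [algebraicIndependent_iff] at h
  push Not at h
  have hex : ∃ d, ∃ Q : MvPolynomial (Fin r) ℂ, aeval U Q = 0 ∧ Q ≠ 0 ∧ Q.totalDegree = d := by
    obtain ⟨Q, hQ, hQ0⟩ := h
    exact ⟨_, Q, hQ, hQ0, rfl⟩
  obtain ⟨Q, hQ, hQ0, hdeg⟩ := Nat.find_spec hex
  have hmin : ∀ Q' : MvPolynomial (Fin r) ℂ, Q'.totalDegree < Q.totalDegree → Q' ≠ 0 →
      aeval U Q' ≠ 0 := by
    intro Q' hlt hne h0
    rw [hdeg] at hlt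
    exact Nat.find_min hex hlt ⟨Q', h0, hne, rfl⟩
  have hnc : ∀ c : ℂ, Q ≠ C c := by
    rintro c rfl
    have h1 : aeval U (C c : MvPolynomial (Fin r) ℂ) = C c := by
      rw [aeval_C]
      rfl
    rw [h1] at hQ
    have h2 : c = 0 := by
      have h3 : (C c : MvPolynomial (Fin n) ℂ) = C 0 := by rw [hQ, C_0]
      exact C_injective _ _ h3
    exact hQ0 (by rw [h2, C_0])
  obtain ⟨i, hi⟩ := dp_exists hnc
  refine Matrix.exists_mulVec_eq_zero_iff.1 ⟨fun j => aeval U (pderiv j Q), ?_, ?_⟩
  · intro h0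
    exact hmin _ (dp_degree hi) hi (congrFun h0 i)
  · funext b
    rw [Matrix.mulVec, dotProduct]
    have h1 := pderiv_aeval U Q (I b)
    rw [hQ, map_zero] at h1
    rw [Pi.zero_apply, h1]
    refine Finset.sum_congr rfl fun j _ => ?_
    rw [Matrix.of_apply, mul_comm]

end JB
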