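import Mathlib
import Pool.Agent.Helper61.JB.Dep

/-!
# JB-2: the linear relation between the derivatives of a polynomial algebraic over `ℂ[T 1, …, T m]`

* `rel_jac`: `Matrix.det_succ_column_zero` for the matrix of `jac (Fin.cons F U) I'`.
* `rel_eq_zero`: `D F := rel (jac (T ∘ J)) I' F` is a derivation of `MvPolynomial (Fin n) ℂ` (a combination of the
  derivations `pderiv (I' a)`). `D (T j) = jac (T ∘ Fin.cons j J) I' = 0`, so `D` vanishes on
  `Algebra.adjoin ℂ (Set.range T)` (`Algebra.adjoin_induction`, or `Derivation.eqOn_adjoin`). If `F` is algebraic,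
  take `p ≠ 0` in `(Algebra.adjoin …)[X]` with `aeval F p = 0` of least degree: `0 = D (aeval F p) =
  aeval F p.derivative * D F` (coefficients are killed by `D`), and `aeval F p.derivative ≠ 0` (the derivative is
  `≠ 0` in characteristic `0` because `p` is not constant, and has smaller degree). `MvPolynomial` is a domain.
-/

namespace JB

open MvPolynomial

/-- The combination of the derivatives of `F` in the directions `I'` with coefficients `M`. -/
noncomputable def rel {n r : ℕ} (M : (Fin r → Fin n) → MvPolynomial (Fin n) ℂ)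
    (I' : Fin (r + 1) → Fin n) (F : MvPolynomial (Fin n) ℂ) : MvPolynomial (Fin n) ℂ :=
  ∑ a : Fin (r + 1), (-1) ^ (a : ℕ) * (pderiv (I' a) F * M fun b => I' (a.succAbove b))

theorem rel_jac {n r : ℕ} (U : Fin r → MvPolynomial (Fin n) ℂ) (I' : Fin (r + 1) → Fin n)
    (F : MvPolynomial (Fin n) ℂ) :
    rel (jac U) I' F = jac (Fin.cons F U : Fin (r + 1) → MvPolynomial (Fin n) ℂ) I' := by
  rw [rel, jac, Matrix.det_succ_column_zero]
  refine Finset.sum_congr rfl fun a _ => ?_
  have h1 : Matrix.submatrix (Matrix.of fun b i : Fin (r + 1) =>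
      pderiv (I' b) ((Fin.cons F U : Fin (r + 1) → MvPolynomial (Fin n) ℂ) i))
      a.succAbove Fin.succ = Matrix.of fun b i : Fin r => pderiv (I' (a.succAbove b)) (U i) := by
    ext b i : 2
    simp only [Matrix.submatrix_apply, Matrix.of_apply, Fin.cons_succ]
  rw [h1]
  simp only [Matrix.of_apply, Fin.cons_zero, jac]
  ring

theorem rel_eq_zero {n m r : ℕ} (T : Fin m → MvPolynomial (Fin n) ℂ) (J : Fin r → Fin m)
    (hmax : ∀ (J' : Fin (r + 1) → Fin m) (I' : Fin (r + 1) → Fin n),
      jac (fun a => T (J' a)) I' = 0) {F : MvPolynomial (Fin n) ℂ}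
    (hF : IsAlgebraic (Algebra.adjoin ℂ (Set.range T)) F) (I' : Fin (r + 1) → Fin n) :
    rel (jac fun a => T (J a)) I' F = 0 := by
  let A : Subalgebra ℂ (MvPolynomial (Fin n) ℂ) := Algebra.adjoin ℂ (Set.range T)
  let D : Derivation ℂ (MvPolynomial (Fin n) ℂ) (MvPolynomial (Fin n) ℂ) :=
    ∑ a : Fin (r + 1), ((-1) ^ (a : ℕ) * jac (fun a => T (J a)) fun b => I' (a.succAbove b)) •
      pderiv (I' a)
  have hD : ∀ G, D G = rel (jac fun a => T (J a)) I' G := by
    intro G
    have e1 : D G = ∑ a : Fin (r + 1), (((-1) ^ (a : ℕ) *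
        jac (fun a => T (J a)) fun b => I' (a.succAbove b)) • pderiv (I' a)) G := by
      have e2 := congrFun (map_sum (Derivation.coeFnAddMonoidHom (R := ℂ)
        (A := MvPolynomial (Fin n) ℂ) (M := MvPolynomial (Fin n) ℂ)) (fun a : Fin (r + 1) =>
        ((-1) ^ (a : ℕ) * jac (fun a => T (J a)) fun b => I' (a.succAbove b)) • pderiv (I' a))
        Finset.univ) G
      rw [Finset.sum_apply] at e2
      exact e2
    rw [e1, rel]
    refine Finset.sum_congr rfl fun a _ => ?_
    rw [Derivation.smul_apply, smul_eq_mul]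
    ring
  have hDT : Set.EqOn D (0 : Derivation ℂ (MvPolynomial (Fin n) ℂ) (MvPolynomial (Fin n) ℂ))
      (Set.range T) := by
    rintro x ⟨j, rfl⟩
    rw [hD, rel_jac, Derivation.zero_apply]
    have e1 : (Fin.cons (T j) (fun a => T (J a)) : Fin (r + 1) → MvPolynomial (Fin n) ℂ) =
        fun a => T ((Fin.cons j J : Fin (r + 1) → Fin m) a) := by
      funext a
      refine Fin.cases ?_ (fun i => ?_) a
      · rw [Fin.cons_zero, Fin.cons_zero]
      · rw [Fin.cons_succ, Fin.cons_succ]
    rw [e1]
    exact hmax _ _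
  have hDA : ∀ x ∈ A, D x = 0 := fun x hx => Derivation.eqOn_adjoin hDT hx
  let D' : Derivation A (MvPolynomial (Fin n) ℂ) (MvPolynomial (Fin n) ℂ) :=
    Derivation.mk'
      { toFun := D
        map_add' := fun x y => D.map_add x y
        map_smul' := fun a x => by
          rw [Algebra.smul_def, D.leibniz, RingHom.id_apply]
          have : D (algebraMap A (MvPolynomial (Fin n) ℂ) a) = 0 := hDA _ a.2
          rw [this, smul_zero, add_zero, smul_eq_mul, Algebra.smul_def] }
      (fun a b => D.leibniz a b)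
  have hD' : ∀ x, D' x = D x := fun x => rfl
  have hchar : CharZero A := charZero_of_injective_algebraMap (R := ℂ)
    (algebraMap ℂ A).injective
  classical
  obtain ⟨p0, hp0, hp0F⟩ := hF
  have hex : ∃ k, ∃ p : Polynomial A, p ≠ 0 ∧ Polynomial.aeval F p = 0 ∧ p.natDegree = k :=
    ⟨_, p0, hp0, hp0F, rfl⟩
  obtain ⟨p, hp, hpF, hpk⟩ := Nat.find_spec hex
  have hmin : ∀ q : Polynomial A, q ≠ 0 → Polynomial.aeval F q = 0 → p.natDegree ≤ q.natDegree := by
    intro q h1 h2
    rw [hpk]
    exact Nat.find_min' hex ⟨q, h1, h2, rfl⟩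
  have hdeg : p.natDegree ≠ 0 := by
    intro h0
    rw [Polynomial.eq_C_of_natDegree_eq_zero h0, Polynomial.aeval_C] at hpF
    have h1 : p.coeff 0 = 0 := by
      apply Subtype.ext
      exact hpF
    apply hp
    rw [Polynomial.eq_C_of_natDegree_eq_zero h0, h1, Polynomial.C_0]
  have hder : Polynomial.derivative p ≠ 0 := fun h0 =>
    hdeg (Polynomial.derivative_eq_zero.1 h0)
  have h1 : Polynomial.aeval F (Polynomial.derivative p) ≠ 0 := fun h0 =>
    absurd (hmin _ hder h0) (not_le.2 (Polynomial.natDegree_derivative_lt hdeg))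
  have h2 := D'.map_aeval p F
  rw [hpF, map_zero, smul_eq_mul] at h2
  have h3 : D' F = 0 := by
    rcases mul_eq_zero.1 h2.symm with h | h
    · exact absurd h h1
    · exact h
  rw [← hD, ← hD']
  exact h3

end JB
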