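import Mathlib
import Pool.Agent.Helper53.JB.Defs
import Pool.Agent.Helper61.JB.Dep
import Pool.Agent.Helper31.AO.Final
import Pool.Agent.Helper61.JB.Rel

/-!
# JB: the class of polynomials and the hitting set
-/

namespace JB

open MvPolynomial AOR Filter Topology

/-- `F` is algebraic over `ℂ[T 1, …, T m]` for some terms `T i` (any number `m`), no `k + 1` of which are
algebraically independent. -/
def IsAlg {n : ℕ} (k K w s d ρ : ℕ) (F : MvPolynomial (Fin n) ℂ) : Prop :=
  ∃ (m : ℕ) (T : Fin m → MvPolynomial (Fin n) ℂ), (∀ i, IsTerm K w s d ρ (T i)) ∧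
    (∀ J : Fin (k + 1) → Fin m, ¬ AlgebraicIndependent ℂ fun a => T (J a)) ∧
    IsAlgebraic (Algebra.adjoin ℂ (Set.range T)) F

/-- Coefficientwise limits of such polynomials. -/
def Border {n : ℕ} (k K w s d ρ : ℕ) (f : MvPolynomial (Fin n) ℂ) : Prop :=
  ∃ F : ℕ → MvPolynomial (Fin n) ℂ, (∀ t, IsAlg k K w s d ρ (F t)) ∧
    ∀ μ, Tendsto (fun t => coeff μ (F t)) atTop (𝓝 (coeff μ f))

/-! ### The hitting set -/

/-- The points of `H` in lexicographic order. -/
def enum {n : ℕ} (H : Finset (Fin n → ℤ)) : List (Fin n → ℤ) :=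
  ((H.image fun x => List.ofFn x).sort (· ≤ ·)).map fun l i => l.getD i 0

/-- The bound for the degrees of the Jacobian determinants. -/
def dgr (k s d : ℕ) : ℕ := k * (d * (s + 1))

/-- The hitting set for all factors. -/
def H₀ (n K w d : ℕ) : Finset (Fin n → ℤ) := hittingSet n d ((K + 1) ^ w)

/-- The hitting set: points `β (τ) + z y` with at most `k` coordinates changed, where `β` is the curve through
the points of `H₀` and `y` runs over the hitting set for any-order rank `rkV`. -/
def hset (n k K w s d ρ : ℕ) : Finset (Fin n → ℤ) :=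
  (Finset.range (k + 1)).biUnion fun r =>
    (Finset.range (k * s * (d * (H₀ n K w d).card) + 1) ×ˢ Finset.range (dgr k s d + 1) ×ˢ
      hittingSet n (dgr k s d) (rkV K w k s ρ (dgr k s d + 1)) ×ˢ
      (Finset.univ : Finset (Fin r → Fin n)) ×ˢ (Finset.univ : Finset (Fin r → Fin (d + 1)))).image
    fun p i => newt (enum (H₀ n K w d)) p.1 i +
      p.2.1 * p.2.2.1 i + ∑ b, if p.2.2.2.1 b = i then ((p.2.2.2.2 b : ℕ) : ℤ) else 0

end JB
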