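import Mathlib
import Pool.Agent.Helper61.JB.Defs

/-!
# JB-10: the sorted list of a finite set of integer points

`Finset.mem_sort`, `Finset.length_sort`, `Finset.card_map`, `List.getElem_of_mem`.
-/

namespace JB

theorem length_enum {n : ℕ} (H : Finset (Fin n → ℤ)) : (enum H).length = H.card := by
  rw [enum, List.length_map, Finset.length_sort]
  exact Finset.card_image_of_injective _ List.ofFn_injective

theorem mem_enum {n : ℕ} {H : Finset (Fin n → ℤ)} {x : Fin n → ℤ} : x ∈ enum H ↔ x ∈ H := by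
  have h0 : ∀ y : Fin n → ℤ, (fun i : Fin n => (List.ofFn y).getD i 0) = y := by
    intro y
    funext i
    simp
  unfold enum
  rw [List.mem_map]
  constructor
  · rintro ⟨a, ha, rfl⟩
    rw [Finset.mem_sort, Finset.mem_image] at ha
    obtain ⟨b, hb, rfl⟩ := ha
    rw [h0]
    exact hb
  · intro hx
    refine ⟨List.ofFn x, ?_, h0 x⟩
    rw [Finset.mem_sort, Finset.mem_image]
    exact ⟨x, hx, rfl⟩

theorem exists_getD {n : ℕ} {H : Finset (Fin n → ℤ)} {x : Fin n → ℤ} (hx : x ∈ H) :
    ∃ k < H.card, (enum H).getD k 0 = x := by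
  obtain ⟨k, hk, h⟩ := List.getElem_of_mem (mem_enum.2 hx)
  refine ⟨k, (length_enum H) ▸ hk, ?_⟩
  rw [List.getD_eq_getElem _ _ hk]
  exact h

theorem getD_mem {n : ℕ} {H : Finset (Fin n → ℤ)} {k : ℕ} (hk : k < H.card) :
    (enum H).getD k 0 ∈ H := by
  have hk' : k < (enum H).length := by rw [length_enum]; exact hk
  rw [List.getD_eq_getElem _ _ hk']
  exact mem_enum.1 (List.getElem_mem hk')

end JB
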