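import Mathlib
import Pool.Agent.Helper61.JB.Defs
import Pool.Agent.Helper31.AO.Sharp

/-!
# JB-16: polynomial bounds for the parameters

Put `X = n + K + s + d + ρ + 2`; `n + 1, K + 1, s + 1, d + 1, ρ + 1 ≤ X`. All bounds are products:
* `dgr_le`: `k d (s + 1) + 1 ≤ (k + 1) (d + 1) (s + 1)`.
* `rkV_le`: with `N = dgr + 1 ≤ (k + 1) X ^ 2`: `N K + 1 ≤ N (K + 1) ≤ (k + 1) X ^ 3`,
  `1 + s (N (N K + 1) ^ w) ≤ (s + 1) N (N K + 1) ^ w ≤ (k + 1) ^ (w + 1) X ^ (3 + 3 w)`,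
  `ρ (…) + 1 ≤ (ρ + 1) (…) ≤ (k + 1) ^ (w + 1) X ^ (4 + 3 w)`, `rkV ≤ (k + 1) k ! (k + 1) ^ ((w + 1) k) X ^ (2 + (4 + 3 w) k)`.
* `H₀_le`: `AOR.card_simple` with `(K + 1) ^ w + 1 ≤ 2 X ^ w`.
* `H₂_le`: `AOR.card_simple`.
-/

namespace JB

open AOR

theorem dgr_le (n k K s d ρ : ℕ) :
    dgr k s d + 1 ≤ (k + 1) * (n + K + s + d + ρ + 2) ^ 2 := by
  unfold dgr
  have h1 : (d + 1) * (s + 1) ≤ (n + K + s + d + ρ + 2) ^ 2 := by
    rw [sq]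
    exact Nat.mul_le_mul (by omega) (by omega)
  have h2 : d * (s + 1) ≤ (d + 1) * (s + 1) := Nat.mul_le_mul_right _ (Nat.le_succ d)
  have h3 : 1 ≤ (d + 1) * (s + 1) := Nat.mul_pos (Nat.succ_pos d) (Nat.succ_pos s)
  calc k * (d * (s + 1)) + 1 ≤ k * ((d + 1) * (s + 1)) + (d + 1) * (s + 1) :=
        Nat.add_le_add (Nat.mul_le_mul_left _ h2) h3
    _ = (k + 1) * ((d + 1) * (s + 1)) := by ring
    _ ≤ (k + 1) * (n + K + s + d + ρ + 2) ^ 2 := Nat.mul_le_mul_left _ h1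

private theorem rkV_aux {K w k s ρ N X : ℕ} (hX : 1 ≤ X) (hK : K + 1 ≤ X) (hs : s + 1 ≤ X)
    (hρ : ρ + 1 ≤ X) (hN : 1 ≤ N) (hNX : N ≤ (k + 1) * X ^ 2) :
    rkV K w k s ρ N + 1 ≤
      ((k + 1) * (k.factorial * ((k + 1) ^ (w + 1)) ^ k) + 1) * X ^ (3 * w * k + 4 * k + 2) := by
  unfold rkV
  have h1 : N * K + 1 ≤ (k + 1) * X ^ 3 := by
    calc N * K + 1 ≤ N * K + N := Nat.add_le_add_left hN _
      _ = N * (K + 1) := by ring
      _ ≤ ((k + 1) * X ^ 2) * X := Nat.mul_le_mul hNX hK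
      _ = (k + 1) * X ^ 3 := by ring
  have h2 : 1 ≤ N * (N * K + 1) ^ w := Nat.mul_pos hN (Nat.pow_pos (Nat.succ_pos _))
  have h3 : N * (N * K + 1) ^ w ≤ (k + 1) ^ (w + 1) * X ^ (3 * w + 2) := by
    calc N * (N * K + 1) ^ w ≤ ((k + 1) * X ^ 2) * ((k + 1) * X ^ 3) ^ w :=
          Nat.mul_le_mul hNX (Nat.pow_le_pow_left h1 w)
      _ = (k + 1) ^ (w + 1) * X ^ (3 * w + 2) := by
          rw [mul_pow, ← pow_mul, pow_succ (k + 1) w, pow_add]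
          ring
  have h4 : 1 + s * (N * (N * K + 1) ^ w) ≤ (k + 1) ^ (w + 1) * X ^ (3 * w + 3) := by
    calc 1 + s * (N * (N * K + 1) ^ w) ≤ N * (N * K + 1) ^ w + s * (N * (N * K + 1) ^ w) :=
          Nat.add_le_add_right h2 _
      _ = (s + 1) * (N * (N * K + 1) ^ w) := by ring
      _ ≤ X * ((k + 1) ^ (w + 1) * X ^ (3 * w + 2)) := Nat.mul_le_mul hs h3
      _ = (k + 1) ^ (w + 1) * X ^ (3 * w + 3) := by
          rw [pow_succ X (3 * w + 2)]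
          ring
  have h5 : ρ * (1 + s * (N * (N * K + 1) ^ w)) + 1 ≤ (k + 1) ^ (w + 1) * X ^ (3 * w + 4) := by
    calc ρ * (1 + s * (N * (N * K + 1) ^ w)) + 1 ≤
          ρ * (1 + s * (N * (N * K + 1) ^ w)) + (1 + s * (N * (N * K + 1) ^ w)) :=
          Nat.add_le_add_left (Nat.le_add_right _ _) _
      _ = (ρ + 1) * (1 + s * (N * (N * K + 1) ^ w)) := by ring
      _ ≤ X * ((k + 1) ^ (w + 1) * X ^ (3 * w + 3)) := Nat.mul_le_mul hρ h4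
      _ = (k + 1) ^ (w + 1) * X ^ (3 * w + 4) := by
          rw [pow_succ X (3 * w + 3)]
          ring
  have h6 : 1 ≤ X ^ (3 * w * k + 4 * k + 2) := Nat.one_le_pow _ _ hX
  calc N * (k.factorial * (ρ * (1 + s * (N * (N * K + 1) ^ w)) + 1) ^ k) + 1 ≤
        ((k + 1) * X ^ 2) * (k.factorial * ((k + 1) ^ (w + 1) * X ^ (3 * w + 4)) ^ k) +
          X ^ (3 * w * k + 4 * k + 2) :=
        Nat.add_le_add (Nat.mul_le_mul hNX (Nat.mul_le_mul_left _ (Nat.pow_le_pow_left h5 k))) h6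
    _ = ((k + 1) * (k.factorial * ((k + 1) ^ (w + 1)) ^ k) + 1) * X ^ (3 * w * k + 4 * k + 2) := by
        rw [mul_pow, ← pow_mul X]
        have h7 : X ^ (3 * w * k + 4 * k + 2) = X ^ 2 * X ^ ((3 * w + 4) * k) := by
          rw [← pow_add]
          congr 1
          ring
        rw [h7]
        ring

theorem rkV_le (k w : ℕ) : ∃ C : ℕ, ∀ n K s d ρ : ℕ, rkV K w k s ρ (dgr k s d + 1) + 1 ≤
    C * (n + K + s + d + ρ + 2) ^ (3 * w * k + 4 * k + 2) := by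
  refine ⟨(k + 1) * (k.factorial * ((k + 1) ^ (w + 1)) ^ k) + 1, fun n K s d ρ => ?_⟩
  exact rkV_aux (by omega) (by omega) (by omega) (by omega) (Nat.le_add_left 1 _)
    (dgr_le n k K s d ρ)

theorem H₀_le (w : ℕ) : ∃ C : ℕ, ∀ n K s d ρ : ℕ, (H₀ n K w d).card ≤
    C * (n + K + s + d + ρ + 2) ^ (15 * w + 6) := by
  obtain ⟨C, hC⟩ := card_simple
  refine ⟨C * 2 ^ 15, fun n K s d ρ => ?_⟩
  unfold H₀
  refine (hC n d ((K + 1) ^ w)).trans ?_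
  have hn : (n + 1) ^ 4 ≤ (n + K + s + d + ρ + 2) ^ 4 := Nat.pow_le_pow_left (by omega) 4
  have hd : (d + 1) ^ 2 ≤ (n + K + s + d + ρ + 2) ^ 2 := Nat.pow_le_pow_left (by omega) 2
  have hK : (K + 1) ^ w + 1 ≤ 2 * (n + K + s + d + ρ + 2) ^ w := by
    have h1 : (K + 1) ^ w ≤ (n + K + s + d + ρ + 2) ^ w := Nat.pow_le_pow_left (by omega) w
    have h2 : 1 ≤ (n + K + s + d + ρ + 2) ^ w := Nat.one_le_pow _ _ (by omega)
    omega
  have hK2 := Nat.pow_le_pow_left hK 15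
  generalize n + K + s + d + ρ + 2 = X at *
  calc C * (n + 1) ^ 4 * (d + 1) ^ 2 * ((K + 1) ^ w + 1) ^ 15 ≤
        C * X ^ 4 * X ^ 2 * (2 * X ^ w) ^ 15 :=
        Nat.mul_le_mul (Nat.mul_le_mul (Nat.mul_le_mul_left _ hn) hd) hK2
    _ = C * 2 ^ 15 * X ^ (15 * w + 6) := by
        rw [mul_pow 2, ← pow_mul, pow_add X (15 * w) 6, mul_comm w 15]
        ring

theorem H₂_le (k w : ℕ) : ∃ C : ℕ, ∀ n K s d ρ : ℕ,
    (hittingSet n (dgr k s d) (rkV K w k s ρ (dgr k s d + 1))).card ≤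
      C * (n + K + s + d + ρ + 2) ^ (45 * w * k + 60 * k + 38) := by
  obtain ⟨C, hC⟩ := card_simple
  obtain ⟨C', hC'⟩ := rkV_le k w
  refine ⟨C * (k + 1) ^ 2 * C' ^ 15, fun n K s d ρ => ?_⟩
  refine (hC n (dgr k s d) (rkV K w k s ρ (dgr k s d + 1))).trans ?_
  have hn : (n + 1) ^ 4 ≤ (n + K + s + d + ρ + 2) ^ 4 := Nat.pow_le_pow_left (by omega) 4
  have hd := Nat.pow_le_pow_left (dgr_le n k K s d ρ) 2
  have hr := Nat.pow_le_pow_left (hC' n K s d ρ) 15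
  generalize n + K + s + d + ρ + 2 = X at *
  generalize rkV K w k s ρ (dgr k s d + 1) = R at *
  generalize dgr k s d = D at *
  calc C * (n + 1) ^ 4 * (D + 1) ^ 2 * (R + 1) ^ 15 ≤
        C * X ^ 4 * ((k + 1) * X ^ 2) ^ 2 * (C' * X ^ (3 * w * k + 4 * k + 2)) ^ 15 :=
        Nat.mul_le_mul (Nat.mul_le_mul (Nat.mul_le_mul_left _ hn) hd) hr
    _ = C * (k + 1) ^ 2 * C' ^ 15 * X ^ (45 * w * k + 60 * k + 38) := by
        have h7 : X ^ (45 * w * k + 60 * k + 38) = X ^ 8 * X ^ ((3 * w * k + 4 * k + 2) * 15) := by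
          rw [← pow_add]
          congr 1
          ring
        rw [h7, mul_pow C', ← pow_mul X (3 * w * k + 4 * k + 2)]
        ring

end JB
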