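import Mathlib
import Pool.Agent.Helper61.JB.Poly
import Pool.Agent.Helper61.JB.Enum
import Pool.Agent.Helper53.JB.Newt

/-!
# JB-18: the coordinates of the points have polynomial bit length

`a i = newt (enum H₀) τ i + z y i + ∑ b, …` with `τ ≤ Z := k s (d m)`, `m = |H₀|`, `z ≤ D := dgr k s d`, `y` in the second
hitting set, at most `k` summands `≤ d`. `newt_le` with `M = (d + 2) ^ E₀`, `E₀ = C (n+1)^4 ((K+1)^w + 1)^9` (`AOR.abs_simple`):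
`|newt| ≤ (Z + 1) ^ m * 2 ^ m * (m * M)`; `|y i| ≤ (D + 2) ^ E₂`, `E₂ = C (n+1)^4 (rkV + 1)^9`. Use `x + 1 ≤ 2 ^ x`, so
`(Z + 1) ^ m ≤ 2 ^ (Z m)`, `m ≤ 2 ^ m`, `M ≤ 2 ^ ((d + 1) E₀)`, `(D + 2) ^ E₂ ≤ 2 ^ ((D + 1) E₂)`, `D ≤ 2 ^ D`, `k d ≤ 2 ^ (k d)`; the sum of the three
terms is `≤ 2 ^ (sum of the exponents + 2)`. With `X = n + K + s + d + ρ + 2` and `H₀_le`, `rkV_le`, `dgr_le`: `Z m ≤ C X ^ (30 w + 14)`,
`E₀ ≤ C X ^ (9 w + 4)`, `(D + 1) E₂ ≤ C X ^ (2 + 4 + 27 w k + 36 k + 18)`.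
-/

namespace JB

open AOR

private theorem succ_le_two_pow (x : ℕ) : x + 1 ≤ 2 ^ x := Nat.lt_two_pow_self

private theorem two_pow_sum3 (a b c : ℕ) : 2 ^ a + 2 ^ b + 2 ^ c ≤ 2 ^ (a + b + c + 2) := by
  have h1 : 2 ^ a ≤ 2 ^ (a + b + c) := Nat.pow_le_pow_right (by norm_num) (by omega)
  have h2 : 2 ^ b ≤ 2 ^ (a + b + c) := Nat.pow_le_pow_right (by norm_num) (by omega)
  have h3 : 2 ^ c ≤ 2 ^ (a + b + c) := Nat.pow_le_pow_right (by norm_num) (by omega)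
  have h4 : 2 ^ (a + b + c + 2) = 4 * 2 ^ (a + b + c) := by
    rw [pow_add]
    ring
  omega

private theorem newt_nat {τ m M d E0 Z : ℕ} (hτ : τ ≤ Z) (hM : M = (d + 2) ^ E0) :
    (τ + 1) ^ m * 2 ^ m * (m * M) ≤ 2 ^ (Z * m + m + m + (d + 1) * E0) := by
  have h1 : (τ + 1) ^ m ≤ 2 ^ (Z * m) := by
    calc (τ + 1) ^ m ≤ (2 ^ τ) ^ m := Nat.pow_le_pow_left (succ_le_two_pow τ) _
      _ = 2 ^ (τ * m) := by rw [← pow_mul]
      _ ≤ 2 ^ (Z * m) := Nat.pow_le_pow_right (by norm_num) (Nat.mul_le_mul_right _ hτ)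
  have h2 : m ≤ 2 ^ m := (Nat.lt_two_pow_self).le
  have h3 : M ≤ 2 ^ ((d + 1) * E0) := by
    rw [hM]
    calc (d + 2) ^ E0 ≤ (2 ^ (d + 1)) ^ E0 := Nat.pow_le_pow_left (succ_le_two_pow (d + 1)) _
      _ = 2 ^ ((d + 1) * E0) := by rw [← pow_mul]
  calc (τ + 1) ^ m * 2 ^ m * (m * M) ≤ 2 ^ (Z * m) * 2 ^ m * (2 ^ m * 2 ^ ((d + 1) * E0)) :=
        Nat.mul_le_mul (Nat.mul_le_mul h1 le_rfl) (Nat.mul_le_mul h2 h3)
    _ = 2 ^ (Z * m + m + m + (d + 1) * E0) := by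
        rw [pow_add, pow_add, pow_add]
        ring

private theorem second_nat {z D e : ℕ} (hz : z ≤ D) : z * (D + 2) ^ e ≤ 2 ^ (D + (D + 1) * e) := by
  have h1 : (D + 2) ^ e ≤ 2 ^ ((D + 1) * e) := by
    calc (D + 2) ^ e ≤ (2 ^ (D + 1)) ^ e := Nat.pow_le_pow_left (succ_le_two_pow (D + 1)) _
      _ = 2 ^ ((D + 1) * e) := by rw [← pow_mul]
  calc z * (D + 2) ^ e ≤ 2 ^ D * 2 ^ ((D + 1) * e) :=
        Nat.mul_le_mul (hz.trans (Nat.lt_two_pow_self).le) h1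
    _ = 2 ^ (D + (D + 1) * e) := by rw [← pow_add]

private theorem expo_le {n K s d ρ k w C0 C1 C2 m D rk : ℕ}
    (hm : m ≤ C1 * (n + K + s + d + ρ + 2) ^ (15 * w + 6))
    (hD : D + 1 ≤ (k + 1) * (n + K + s + d + ρ + 2) ^ 2)
    (hrk : rk + 1 ≤ C2 * (n + K + s + d + ρ + 2) ^ (3 * w * k + 4 * k + 2)) :
    (k * s * (d * m) * m + m + m + (d + 1) * (C0 * (n + 1) ^ 4 * ((K + 1) ^ w + 1) ^ 9)) +
      (D + (D + 1) * (C0 * (n + 1) ^ 4 * (rk + 1) ^ 9)) + k * d + 2 ≤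
    (k * C1 ^ 2 + 2 * C1 + 2 ^ 9 * C0 + (k + 1) + (k + 1) * (C0 * C2 ^ 9) + k + 2) *
      (n + K + s + d + ρ + 2) ^ (27 * w * k + 36 * k + 30 * w + 24) := by
  have hs : s ≤ n + K + s + d + ρ + 2 := by omega
  have hd : d ≤ n + K + s + d + ρ + 2 := by omega
  have hd1 : d + 1 ≤ n + K + s + d + ρ + 2 := by omega
  have hn1 : n + 1 ≤ n + K + s + d + ρ + 2 := by omega
  have hK1 : K + 1 ≤ n + K + s + d + ρ + 2 := by omega
  have hX1 : 1 ≤ n + K + s + d + ρ + 2 := by omega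
  generalize n + K + s + d + ρ + 2 = X at *
  have hpow : ∀ {e : ℕ}, e ≤ 27 * w * k + 36 * k + 30 * w + 24 →
      X ^ e ≤ X ^ (27 * w * k + 36 * k + 30 * w + 24) := fun h => Nat.pow_le_pow_right hX1 h
  have e1 : k * s * (d * m) * m ≤ k * C1 ^ 2 * X ^ (27 * w * k + 36 * k + 30 * w + 24) := by
    calc k * s * (d * m) * m ≤ k * X * (X * (C1 * X ^ (15 * w + 6))) * (C1 * X ^ (15 * w + 6)) :=
          Nat.mul_le_mul (Nat.mul_le_mul (Nat.mul_le_mul le_rfl hs) (Nat.mul_le_mul hd hm)) hm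
      _ = k * C1 ^ 2 * X ^ (30 * w + 14) := by ring
      _ ≤ _ := Nat.mul_le_mul le_rfl (hpow (by omega))
  have e2 : m ≤ C1 * X ^ (27 * w * k + 36 * k + 30 * w + 24) :=
    hm.trans (Nat.mul_le_mul le_rfl (hpow (by omega)))
  have e3 : (d + 1) * (C0 * (n + 1) ^ 4 * ((K + 1) ^ w + 1) ^ 9) ≤
      2 ^ 9 * C0 * X ^ (27 * w * k + 36 * k + 30 * w + 24) := by
    have h1 : (K + 1) ^ w + 1 ≤ 2 * X ^ w := by
      have h2 : (K + 1) ^ w ≤ X ^ w := Nat.pow_le_pow_left hK1 w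
      have h3 : 1 ≤ X ^ w := Nat.one_le_pow _ _ hX1
      omega
    calc (d + 1) * (C0 * (n + 1) ^ 4 * ((K + 1) ^ w + 1) ^ 9)
        ≤ X * (C0 * X ^ 4 * (2 * X ^ w) ^ 9) :=
          Nat.mul_le_mul hd1 (Nat.mul_le_mul (Nat.mul_le_mul le_rfl (Nat.pow_le_pow_left hn1 4))
            (Nat.pow_le_pow_left h1 9))
      _ = 2 ^ 9 * C0 * X ^ (9 * w + 5) := by
          rw [mul_pow, ← pow_mul, mul_comm w 9, pow_add]
          ring
      _ ≤ _ := Nat.mul_le_mul le_rfl (hpow (by omega))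
  have e4 : D ≤ (k + 1) * X ^ (27 * w * k + 36 * k + 30 * w + 24) :=
    (Nat.le_succ D).trans (hD.trans (Nat.mul_le_mul le_rfl (hpow (by omega))))
  have e5 : (D + 1) * (C0 * (n + 1) ^ 4 * (rk + 1) ^ 9) ≤
      (k + 1) * (C0 * C2 ^ 9) * X ^ (27 * w * k + 36 * k + 30 * w + 24) := by
    calc (D + 1) * (C0 * (n + 1) ^ 4 * (rk + 1) ^ 9)
        ≤ ((k + 1) * X ^ 2) * (C0 * X ^ 4 * (C2 * X ^ (3 * w * k + 4 * k + 2)) ^ 9) :=
          Nat.mul_le_mul hD (Nat.mul_le_mul (Nat.mul_le_mul le_rfl (Nat.pow_le_pow_left hn1 4))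
            (Nat.pow_le_pow_left hrk 9))
      _ = (k + 1) * (C0 * C2 ^ 9) * X ^ (27 * w * k + 36 * k + 24) := by
          have h1 : X ^ (27 * w * k + 36 * k + 24) =
              X ^ 6 * (X ^ (3 * w * k + 4 * k + 2)) ^ 9 := by
            rw [← pow_mul, ← pow_add]
            congr 1
            ring
          rw [h1, mul_pow]
          ring
      _ ≤ _ := Nat.mul_le_mul le_rfl (hpow (by omega))
  have e6 : k * d ≤ k * X ^ (27 * w * k + 36 * k + 30 * w + 24) := by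
    refine Nat.mul_le_mul le_rfl (hd.trans ?_)
    exact Nat.le_self_pow (by omega) X
  have e7 : 2 ≤ 2 * X ^ (27 * w * k + 36 * k + 30 * w + 24) := by
    have := Nat.one_le_pow (27 * w * k + 36 * k + 30 * w + 24) X hX1
    omega
  generalize X ^ (27 * w * k + 36 * k + 30 * w + 24) = Y at e1 e2 e3 e4 e5 e6 e7 ⊢
  calc _ ≤ (k * C1 ^ 2 * Y + C1 * Y + C1 * Y + 2 ^ 9 * C0 * Y) +
        ((k + 1) * Y + (k + 1) * (C0 * C2 ^ 9) * Y) + k * Y + 2 * Y :=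
        Nat.add_le_add (Nat.add_le_add (Nat.add_le_add (Nat.add_le_add (Nat.add_le_add
          (Nat.add_le_add e1 e2) e2) e3) (Nat.add_le_add e4 e5)) e6) e7
    _ = _ := by ring

theorem abs_poly (k w : ℕ) : ∃ C : ℕ, ∀ (n K s d ρ : ℕ) (a : Fin n → ℤ),
    a ∈ hset n k K w s d ρ → ∀ i, |a i| ≤
      ((2 ^ (C * (n + K + s + d + ρ + 2) ^ (27 * w * k + 36 * k + 30 * w + 24)) : ℕ) : ℤ) := by
  obtain ⟨C0, hC0⟩ := abs_simple
  obtain ⟨C1, hC1⟩ := H₀_le w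
  obtain ⟨C2, hC2⟩ := rkV_le k w
  refine ⟨k * C1 ^ 2 + 2 * C1 + 2 ^ 9 * C0 + (k + 1) + (k + 1) * (C0 * C2 ^ 9) + k + 2,
    fun n K s d ρ a ha i => ?_⟩
  obtain ⟨r, hr, ha⟩ := Finset.mem_biUnion.1 ha
  obtain ⟨p, hp, rfl⟩ := Finset.mem_image.1 ha
  obtain ⟨τ, z, y, I, c⟩ := p
  simp only [Finset.mem_product, Finset.mem_range] at hp hr
  obtain ⟨hτ, hz, hy, _, _⟩ := hp
  have hD := dgr_le n k K s d ρ
  have hex := expo_le (C0 := C0) (hC1 n K s d ρ) hD (hC2 n K s d ρ)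
  have hL : (enum (H₀ n K w d)).length = (H₀ n K w d).card := length_enum _
  -- the first term
  have b1 : |newt (enum (H₀ n K w d)) τ i| ≤ ((2 ^ (k * s * (d * (H₀ n K w d).card) *
      (H₀ n K w d).card + (H₀ n K w d).card + (H₀ n K w d).card +
      (d + 1) * (C0 * (n + 1) ^ 4 * ((K + 1) ^ w + 1) ^ 9)) : ℕ) : ℤ) := by
    have h1 := newt_le (enum (H₀ n K w d)) τ ((d + 2) ^ (C0 * (n + 1) ^ 4 * ((K + 1) ^ w + 1) ^ 9))
      (fun a ha l => hC0 n d ((K + 1) ^ w) a (mem_enum.1 ha) l) i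
    rw [hL] at h1
    refine h1.trans ?_
    have h2 := newt_nat (τ := τ) (m := (H₀ n K w d).card) (Z := k * s * (d * (H₀ n K w d).card))
      (d := d) (E0 := C0 * (n + 1) ^ 4 * ((K + 1) ^ w + 1) ^ 9) (by omega) rfl
    exact_mod_cast h2
  -- the second term
  have b2 : |(z : ℤ) * y i| ≤ ((2 ^ (dgr k s d + (dgr k s d + 1) *
      (C0 * (n + 1) ^ 4 * (rkV K w k s ρ (dgr k s d + 1) + 1) ^ 9)) : ℕ) : ℤ) := by
    rw [abs_mul, abs_of_nonneg (Int.natCast_nonneg z)]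
    have h1 := hC0 n (dgr k s d) (rkV K w k s ρ (dgr k s d + 1)) y hy i
    refine (mul_le_mul_of_nonneg_left h1 (Int.natCast_nonneg z)).trans ?_
    have h2 := second_nat (z := z) (D := dgr k s d)
      (e := C0 * (n + 1) ^ 4 * (rkV K w k s ρ (dgr k s d + 1) + 1) ^ 9) (by omega)
    exact_mod_cast h2
  -- the third term
  have b3 : |∑ b : Fin r, (if I b = i then (((c b : Fin (d + 1)) : ℕ) : ℤ) else 0)| ≤
      ((2 ^ (k * d) : ℕ) : ℤ) := by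
    refine (Finset.abs_sum_le_sum_abs _ _).trans ?_
    have h1 : ∀ b ∈ (Finset.univ : Finset (Fin r)),
        |(if I b = i then (((c b : Fin (d + 1)) : ℕ) : ℤ) else 0)| ≤ (d : ℤ) := by
      intro b _
      split_ifs
      · rw [abs_of_nonneg (Int.natCast_nonneg _)]
        have := (c b).2
        exact_mod_cast Nat.lt_succ_iff.1 this
      · simp
    refine (Finset.sum_le_card_nsmul _ _ _ h1).trans ?_
    rw [Finset.card_univ, Fintype.card_fin, nsmul_eq_mul]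
    have h2 : r * d ≤ 2 ^ (k * d) :=
      (Nat.mul_le_mul_right d (Nat.lt_succ_iff.1 hr)).trans (Nat.lt_two_pow_self).le
    exact_mod_cast h2
  have h4 := two_pow_sum3 (k * s * (d * (H₀ n K w d).card) *
      (H₀ n K w d).card + (H₀ n K w d).card + (H₀ n K w d).card +
      (d + 1) * (C0 * (n + 1) ^ 4 * ((K + 1) ^ w + 1) ^ 9)) (dgr k s d + (dgr k s d + 1) *
      (C0 * (n + 1) ^ 4 * (rkV K w k s ρ (dgr k s d + 1) + 1) ^ 9)) (k * d)
  have h5 := h4.trans (Nat.pow_le_pow_right (by norm_num : 0 < 2) hex)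
  have h6 : |newt (enum (H₀ n K w d)) τ i + (z : ℤ) * y i +
      ∑ b : Fin r, (if I b = i then (((c b : Fin (d + 1)) : ℕ) : ℤ) else 0)| ≤ _ :=
    (abs_add_le _ _).trans (add_le_add ((abs_add_le _ _).trans (add_le_add b1 b2)) b3)
  refine h6.trans ?_
  exact_mod_cast h5

end JB
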