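import Mathlib
import Pool.Agent.Helper61.JB.Defs

/-!
# JB-15: the number of points, in terms of the two any-order hitting sets

`Finset.card_biUnion_le`, `Finset.card_image_le`, `Finset.card_product`, `Fintype.card_fun`; `n ^ r ≤ (n + 1) ^ k` and
`(d + 1) ^ r ≤ (d + 1) ^ k` for `r ≤ k`.
-/

namespace JB

open AOR

theorem card_hset (n k K w s d ρ : ℕ) :
    (hset n k K w s d ρ).card ≤ (k + 1) * ((k * s * (d * (H₀ n K w d).card) + 1) *
      ((dgr k s d + 1) * ((hittingSet n (dgr k s d) (rkV K w k s ρ (dgr k s d + 1))).card *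
        ((n + 1) ^ k * (d + 1) ^ k)))) := by
  classical
  rw [hset]
  refine (Finset.card_biUnion_le_card_mul _ _ _ fun r hr => ?_).trans_eq (by rw [Finset.card_range])
  refine Finset.card_image_le.trans ?_
  have hrk : r ≤ k := Nat.lt_succ_iff.1 (Finset.mem_range.1 hr)
  rw [Finset.card_product, Finset.card_product, Finset.card_product, Finset.card_product,
    Finset.card_range, Finset.card_range, Finset.card_univ, Finset.card_univ, Fintype.card_fun,
    Fintype.card_fun, Fintype.card_fin, Fintype.card_fin, Fintype.card_fin]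
  refine Nat.mul_le_mul_left _ (Nat.mul_le_mul_left _ (Nat.mul_le_mul_left _
    (Nat.mul_le_mul ?_ ?_)))
  · exact (Nat.pow_le_pow_left (Nat.le_succ n) r).trans
      (Nat.pow_le_pow_right (Nat.succ_pos n) hrk)
  · exact Nat.pow_le_pow_right (Nat.succ_pos d) hrk

end JB
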