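import Mathlib
import Pool.Agent.Helper61.JB.Rel

/-!
# JB-3: a maximal nonvanishing Jacobian determinant

`exists_jac`: let `r` be the least number such that all `jac (T ∘ J') I'` with `J' : Fin (r + 1) → Fin m` vanish;
`r ≤ k` by `jac_eq_zero`. If `r = 0`: `jac` of the empty family is `1`. If `r = r' + 1`: by minimality of `r` some
`jac (T ∘ J) I ≠ 0` with `J : Fin r → Fin m`. The relation is `rel_eq_zero`.
-/

namespace JB

open MvPolynomial

theorem exists_jac {n m k : ℕ} (T : Fin m → MvPolynomial (Fin n) ℂ)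
    (hk : ∀ J : Fin (k + 1) → Fin m, ¬ AlgebraicIndependent ℂ fun a => T (J a)) :
    ∃ r ≤ k, ∃ J : Fin r → Fin m, (∃ I, jac (fun a => T (J a)) I ≠ 0) ∧
      ∀ F : MvPolynomial (Fin n) ℂ, IsAlgebraic (Algebra.adjoin ℂ (Set.range T)) F →
        ∀ I', rel (jac fun a => T (J a)) I' F = 0 := by
  classical
  have hex : ∃ r, ∀ (J' : Fin (r + 1) → Fin m) (I' : Fin (r + 1) → Fin n),
      jac (fun a => T (J' a)) I' = 0 := ⟨k, fun J' I' => jac_eq_zero (hk J') I'⟩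
  obtain ⟨r, hr, hrk, hrm⟩ : ∃ r, (∀ (J' : Fin (r + 1) → Fin m) (I' : Fin (r + 1) → Fin n),
      jac (fun a => T (J' a)) I' = 0) ∧ r ≤ k ∧ ∀ r' < r,
        ¬ ∀ (J' : Fin (r' + 1) → Fin m) (I' : Fin (r' + 1) → Fin n),
          jac (fun a => T (J' a)) I' = 0 :=
    ⟨Nat.find hex, Nat.find_spec hex, Nat.find_le fun J' I' => jac_eq_zero (hk J') I',
      fun r' h => Nat.find_min hex h⟩
  refine ⟨r, hrk, ?_⟩
  rcases r with _ | r'
  · refine ⟨Fin.elim0, ⟨Fin.elim0, ?_⟩, fun F hF I' => rel_eq_zero T _ hr hF I'⟩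
    rw [jac, Matrix.det_isEmpty]
    exact one_ne_zero
  · have h1 := hrm r' (Nat.lt_succ_self r')
    push Not at h1
    obtain ⟨J, I, hJI⟩ := h1
    exact ⟨J, ⟨I, hJI⟩, fun F hF I' => rel_eq_zero T _ hr hF I'⟩

end JB
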