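import Mathlib

/-!
# JB-5: from a point of a coordinate slice to a point with small integer displacement

`grid_point`: `q := aeval (fun i => C (α i) + ∑ b, if I b = i then X b else 0) f : MvPolynomial (Fin r) ℂ` has
`totalDegree ≤ d`. It is nonzero: choose `c : Fin r → ℂ` with `α i + ∑ b, (if I b = i then c b else 0) = x i` for
all `i` (for every `i` in the range of `I` choose one `b i` with `I (b i) = i`, `c (b i) = x i - α i` and `c = 0` for
the other `b`). `MvPolynomial.eq_zero_of_eval_zero_at_prod_finset` (or the theorem of that kind in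
Mathlib) with the sets `{0, …, d}`.
-/

namespace JB

open MvPolynomial

private theorem deg_sub {n r : ℕ} (l : Fin n → MvPolynomial (Fin r) ℂ)
    (hl : ∀ j, (l j).totalDegree ≤ 1) (F : MvPolynomial (Fin n) ℂ) :
    (aeval l F).totalDegree ≤ F.totalDegree := by
  rw [aeval_def, eval₂_eq']
  refine totalDegree_finsetSum_le fun s hs => ?_
  have h3 := le_totalDegree hs
  rw [Finsupp.sum_fintype _ _ (fun _ => rfl)] at h3
  refine (totalDegree_mul _ _).trans ?_
  rw [algebraMap_eq, totalDegree_C, zero_add]
  refine (totalDegree_finsetProd _ _).trans ?_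
  refine (Finset.sum_le_sum fun j _ => ?_).trans h3
  refine (totalDegree_pow _ _).trans ?_
  calc s j * (l j).totalDegree ≤ s j * 1 := Nat.mul_le_mul_left _ (hl j)
    _ = s j := mul_one _

theorem grid_point {n r d : ℕ} {f : MvPolynomial (Fin n) ℂ} (hd : f.totalDegree ≤ d)
    (α : Fin n → ℂ) (I : Fin r → Fin n) {x : Fin n → ℂ}
    (hx : ∀ i, (∀ b, I b ≠ i) → x i = α i) (hf : eval x f ≠ 0) :
    ∃ c : Fin r → ℕ, (∀ b, c b ≤ d) ∧
      eval (fun i => α i + ∑ b, if I b = i then (c b : ℂ) else 0) f ≠ 0 := by
  classical
  let l : Fin n → MvPolynomial (Fin r) ℂ := fun i => C (α i) + ∑ b, if I b = i then X b else 0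
  have hl : ∀ i, (l i).totalDegree ≤ 1 := by
    intro i
    refine (totalDegree_add _ _).trans ?_
    rw [totalDegree_C]
    refine max_le (Nat.zero_le _) ?_
    refine totalDegree_finsetSum_le fun b _ => ?_
    split_ifs
    · rw [totalDegree_X]
    · rw [totalDegree_zero]
      exact Nat.zero_le _
  let q : MvPolynomial (Fin r) ℂ := aeval l f
  have hqd : q.totalDegree ≤ d := (deg_sub l hl f).trans hd
  have hqe : ∀ c : Fin r → ℂ, eval c q = eval (fun i => α i + ∑ b, if I b = i then c b else 0) f := by
    intro c
    have h1 : (fun i => eval c (l i)) = fun i => α i + ∑ b, if I b = i then c b else 0 := by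
      funext i
      simp only [l, map_add, eval_C, map_sum]
      congr 1
      refine Finset.sum_congr rfl fun b _ => ?_
      split_ifs
      · rw [eval_X]
      · rw [map_zero]
    rw [← h1]
    exact eval₂Hom_bind₁ (RingHom.id ℂ) c l f
  -- a point where it is nonzero
  have hq0 : q ≠ 0 := by
    let c : Fin r → ℂ := fun b =>
      if h : ∃ b', I b' = I b ∧ b' < b then 0 else x (I b) - α (I b)
    have hc : (fun i => α i + ∑ b, if I b = i then c b else 0) = x := by
      funext i
      by_cases hi : ∃ b, I b = i
      · -- the least such b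
        obtain ⟨b0, hb0, hmin⟩ : ∃ b, I b = i ∧ ∀ b', I b' = i → b ≤ b' := by
          have hne : (Finset.univ.filter fun b => I b = i).Nonempty := by
            obtain ⟨b, hb⟩ := hi
            exact ⟨b, by simp [hb]⟩
          refine ⟨(Finset.univ.filter fun b => I b = i).min' hne, ?_, ?_⟩
          · have := Finset.min'_mem _ hne
            simpa using this
          · intro b' hb'
            exact Finset.min'_le _ _ (by simp [hb'])
        rw [Finset.sum_eq_single b0]
        · rw [if_pos hb0]
          have h2 : ¬ ∃ b', I b' = I b0 ∧ b' < b0 := by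
            rintro ⟨b', hb', hlt⟩
            exact absurd (hmin b' (hb'.trans hb0)) (not_le.mpr hlt)
          simp only [c]
          rw [dif_neg h2, hb0]
          ring
        · intro b _ hb
          by_cases hbi : I b = i
          · rw [if_pos hbi]
            have h2 : ∃ b', I b' = I b ∧ b' < b :=
              ⟨b0, hb0.trans hbi.symm, lt_of_le_of_ne (hmin b hbi) (Ne.symm hb)⟩
            simp only [c]
            rw [dif_pos h2]
          · rw [if_neg hbi]
        · intro h
          exact absurd (Finset.mem_univ b0) h
      · have h1 : ∀ b, I b ≠ i := fun b hb => hi ⟨b, hb⟩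
        rw [hx i h1]
        rw [Finset.sum_eq_zero]
        · ring
        · intro b _
          rw [if_neg (h1 b)]
    intro h0
    have h1 := hqe c
    rw [h0, map_zero, hc] at h1
    exact hf h1.symm
  by_contra hcon
  push Not at hcon
  apply hq0
  refine eq_zero_of_eval_zero_at_prod_finset q
    (fun _ => (Finset.range (d + 1)).image (fun m : ℕ => (m : ℂ))) ?_ ?_
  · intro i
    rw [Finset.card_image_of_injective _ Nat.cast_injective, Finset.card_range]
    exact Nat.lt_succ_of_le ((degreeOf_le_totalDegree q i).trans hqd)
  · intro y hy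
    have h1 : ∀ b, ∃ m : ℕ, m ≤ d ∧ (m : ℂ) = y b := by
      intro b
      have := hy b
      rw [Finset.mem_image] at this
      obtain ⟨m, hm, hmy⟩ := this
      exact ⟨m, Nat.lt_succ_iff.mp (Finset.mem_range.mp hm), hmy⟩
    choose m hm hmy using h1
    have h2 := hcon m hm
    rw [hqe y]
    have h3 : y = fun b => ((m b : ℕ) : ℂ) := funext fun b => (hmy b).symm
    rw [h3]
    exact h2

end JB
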