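import Mathlib
import Pool.Agent.Helper61.JB.Defs
import Pool.Agent.Helper61.JB.Exists

/-!
# JB-9: the local data of one polynomial

`exists_jac` gives `r ≤ k`, `J`, with `jac (T ∘ J) I ≠ 0`; so `T (J a) ≠ 0` (otherwise a column of the matrix is
zero).
-/

namespace JB

open MvPolynomial AOR Filter Topology

theorem exists_local {n k K w s d ρ : ℕ} {F : MvPolynomial (Fin n) ℂ}
    (h : IsAlg k K w s d ρ F) :
    ∃ r ≤ k, ∃ T : Fin r → MvPolynomial (Fin n) ℂ, (∀ i, IsTerm K w s d ρ (T i)) ∧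
      (∀ i, T i ≠ 0) ∧ (∃ I, jac T I ≠ 0) ∧ ∀ I', rel (jac T) I' F = 0 := by
  obtain ⟨m, T, hT, hk, hF⟩ := h
  obtain ⟨r, hr, J, ⟨I, hI⟩, hrel⟩ := exists_jac T hk
  have h0 : ∀ i, T (J i) ≠ 0 := by
    intro i hi
    refine hI ?_
    unfold jac
    refine Matrix.det_eq_zero_of_column_eq_zero i fun b => ?_
    show pderiv (I b) (T (J i)) = 0
    rw [hi, map_zero]
  exact ⟨r, hr, fun i => T (J i), fun i => hT (J i), h0, ⟨I, hI⟩, hrel F hF⟩

end JB
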