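import Mathlib
import Pool.Agent.Helper53.JB.Defs
import Pool.Agent.Helper61.JB.Rel

/-!
# JB-6: the relation passes to limits

`coeff μ (pderiv b f) = (μ b + 1) * coeff (μ + single b 1) f`; the coefficient of `μ` of a product is a finite sum
over the antidiagonal (`MvPolynomial.coeff_mul`), so `PT` is compatible with `pderiv`, products, finite sums; limits
are unique (`tendsto_nhds_unique`). `rel` is linear in `M` (`rel_smul`).
-/

namespace JB

open MvPolynomial AOR Filter Topology

theorem rel_smul {n r : ℕ} (c : ℂ) (M : (Fin r → Fin n) → MvPolynomial (Fin n) ℂ)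
    (I' : Fin (r + 1) → Fin n) (f : MvPolynomial (Fin n) ℂ) :
    rel (fun I => c • M I) I' f = c • rel M I' f := by
  unfold rel
  rw [Finset.smul_sum]
  refine Finset.sum_congr rfl fun a _ => ?_
  rw [mul_smul_comm, mul_smul_comm]

private theorem rl_const {n : ℕ} {F : Ultrafilter ℕ} (c : MvPolynomial (Fin n) ℂ) :
    PT F (fun _ => c) c := fun _ => tendsto_const_nhds

private theorem rl_mul {n : ℕ} {F : Ultrafilter ℕ} {u u' : ℕ → MvPolynomial (Fin n) ℂ}
    {v v' : MvPolynomial (Fin n) ℂ} (hu : PT F u v) (hu' : PT F u' v') :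
    PT F (fun t => u t * u' t) (v * v') := by
  intro m
  simp only [coeff_mul]
  exact tendsto_finsetSum _ fun x _ => (hu _).mul (hu' _)

private theorem rl_sum {n : ℕ} {ι : Type*} {F : Ultrafilter ℕ} (s : Finset ι)
    {u : ι → ℕ → MvPolynomial (Fin n) ℂ} {v : ι → MvPolynomial (Fin n) ℂ}
    (hu : ∀ i, PT F (u i) (v i)) : PT F (fun t => ∑ i ∈ s, u i t) (∑ i ∈ s, v i) := by
  intro m
  simp only [coeff_sum]
  exact tendsto_finsetSum _ fun i _ => hu i m

private theorem rl_pderiv {n : ℕ} {F : Ultrafilter ℕ} (b : Fin n)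
    {u : ℕ → MvPolynomial (Fin n) ℂ} {v : MvPolynomial (Fin n) ℂ} (hu : PT F u v) :
    PT F (fun t => pderiv b (u t)) (pderiv b v) := by
  intro m
  simp only [coeff_pderiv]
  exact (hu _).mul_const _

theorem rel_limit {n r : ℕ} {F : Ultrafilter ℕ}
    {M : ℕ → (Fin r → Fin n) → MvPolynomial (Fin n) ℂ}
    {L : (Fin r → Fin n) → MvPolynomial (Fin n) ℂ} {f : ℕ → MvPolynomial (Fin n) ℂ}
    {g : MvPolynomial (Fin n) ℂ} (hM : ∀ I, PT F (fun t => M t I) (L I)) (hf : PT F f g)
    (I' : Fin (r + 1) → Fin n) (h : ∀ᶠ t in (F : Filter ℕ), rel (M t) I' (f t) = 0) :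
    rel L I' g = 0 := by
  have key : PT F (fun t => rel (M t) I' (f t)) (rel L I' g) := by
    unfold rel
    exact rl_sum _ fun a => rl_mul (rl_const _) (rl_mul (rl_pderiv _ hf) (hM _))
  ext m
  rw [coeff_zero]
  refine tendsto_nhds_unique (key m) ?_
  refine (tendsto_congr' ?_).mpr (tendsto_const_nhds (x := (0 : ℂ)))
  filter_upwards [h] with t ht
  rw [ht, coeff_zero]

end JB
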