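import Mathlib
import Pool.Agent.Helper61.JB.Rel

/-!
# JB-4: the slice lemma

`slice_ne_zero`. Proof. Translate: replace `f`, `M` by `f (α + ·)`, `M (α + ·)` (`aeval (fun i => X i + C (α i))`
commutes with `pderiv`; the relation is kept), so `α = 0`. Give the variable `i` the weight `w i = 0` if `i` is in
the range of `I` and `w i = 1` otherwise (`MvPolynomial.weightedHomogeneousComponent w`). Suppose `f = 0` at all
points which are `0` outside the range of `I`; then the component of weight `0` of `f` is `0` (it only contains the
variables of weight `0`: its value at `x` is the value of `f` at `x` set to `0` outside the range). Let `m ≥ 1` be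
the least number with `f_m := weightedHomogeneousComponent w m f ≠ 0`. For `l` outside the range of `I` use the
relation for `I' = Fin.cons l I`: `pderiv l f * M I = -∑ b, ± pderiv (I b) f * M (…)`. All monomials of
`pderiv (I b) f` have weight `≥ m` (the variable `I b` has weight `0`), those of `pderiv l f` weight `≥ m - 1`, with
component `pderiv l f_m` of weight `m - 1`. The component of weight `m - 1` of the relation is
`pderiv l f_m * (M I)_0 = 0`, and `(M I)_0 ≠ 0` because its value at `0` is `eval 0 (M I) ≠ 0`. So
`pderiv l f_m = 0` for all `l` outside the range, and Euler's identity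
`m f_m = ∑_{l of weight 1} X l * pderiv l f_m` (on monomials; `MvPolynomial.weighted…`) gives `f_m = 0`.
(Alternative without components: let `f` be nonzero and look at the least weight of a monomial of `f`.)
-/

namespace JB

open MvPolynomial

private theorem h86_chain {n : ℕ} (y : Fin n → MvPolynomial (Option (Fin n)) ℂ)
    (o : Option (Fin n)) (g : MvPolynomial (Fin n) ℂ) :
    pderiv o (aeval y g) = ∑ i, aeval y (pderiv i g) * pderiv o (y i) := by
  induction g using MvPolynomial.induction_on with
  | C a => simp
  | add p q hp hq =>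
    simp only [map_add, hp, hq, add_mul, Finset.sum_add_distrib]
  | mul_X p i hp =>
    simp only [map_mul, aeval_X, pderiv_mul, map_add, hp, add_mul, Finset.sum_add_distrib]
    congr 1
    · rw [Finset.sum_mul]
      refine Finset.sum_congr rfl fun j _ => ?_
      ring
    · rw [Finset.sum_eq_single i]
      · rw [pderiv_X_self, map_one, mul_one]
      · intro j _ hj
        rw [pderiv_X_of_ne (Ne.symm hj), map_zero, mul_zero, zero_mul]
      · intro h
        exact absurd (Finset.mem_univ i) h

/-- A polynomial is congruent to its value at `X none = 0`. -/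
private theorem h86_dvd {n : ℕ} (G : MvPolynomial (Option (Fin n)) ℂ) :
    (X none : MvPolynomial (Option (Fin n)) ℂ) ∣
      G - aeval (fun o : Option (Fin n) => o.elim (0 : MvPolynomial (Option (Fin n)) ℂ)
        fun i => X (some i)) G := by
  induction G using MvPolynomial.induction_on with
  | C a => simp
  | add p q hp hq =>
    rw [map_add, add_sub_add_comm]
    exact dvd_add hp hq
  | mul_X p i hp =>
    rw [map_mul, aeval_X]
    have e : ∀ a b c d : MvPolynomial (Option (Fin n)) ℂ,
        a * b - c * d = (a - c) * b + c * (b - d) := fun a b c d => by ring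
    rw [e]
    refine dvd_add (hp.mul_right _) (Dvd.dvd.mul_left ?_ _)
    cases i with
    | none => simp
    | some j => simp

theorem slice_ne_zero {n r : ℕ} (M : (Fin r → Fin n) → MvPolynomial (Fin n) ℂ)
    (f : MvPolynomial (Fin n) ℂ) (hrel : ∀ I' : Fin (r + 1) → Fin n, rel M I' f = 0)
    (α : Fin n → ℂ) (I : Fin r → Fin n) (hα : eval α (M I) ≠ 0) (h0 : f ≠ 0) :
    ∃ x : Fin n → ℂ, (∀ i, (∀ b, I b ≠ i) → x i = α i) ∧ eval x f ≠ 0 := by
  classical
  by_contra hcon
  push Not at hcon
  set t : MvPolynomial (Option (Fin n)) ℂ := X none with ht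
  set y : Fin n → MvPolynomial (Option (Fin n)) ℂ := fun i =>
    if (∃ b, I b = i) then C (α i) + X (some i) else C (α i) + t * X (some i) with hy
  set φ := aeval (R := ℂ) y with hφ
  have hev : ∀ (p : Option (Fin n) → ℂ) (g : MvPolynomial (Fin n) ℂ),
      eval p (φ g) = eval (fun i => eval p (y i)) g := by
    intro p g
    rw [hφ]
    induction g using MvPolynomial.induction_on with
    | C a => simp
    | add a b ha hb => simp only [map_add, ha, hb]
    | mul_X a i ha => simp only [map_mul, ha, aeval_X, eval_X]
  -- derivatives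
  have hs : ∀ (b : Fin r) (g : MvPolynomial (Fin n) ℂ),
      pderiv (some (I b)) (φ g) = φ (pderiv (I b) g) := by
    intro b g
    rw [hφ, h86_chain, Finset.sum_eq_single (I b)]
    · have e : pderiv (some (I b)) (y (I b)) = 1 := by
        simp only [hy]
        rw [if_pos ⟨b, rfl⟩, map_add, pderiv_C, zero_add, pderiv_X_self]
      rw [e, mul_one]
    · intro j _ hj
      have hne : (some j : Option (Fin n)) ≠ some (I b) := fun h => hj (Option.some_injective _ h)
      have e : pderiv (some (I b)) (y j) = 0 := by
        simp only [hy]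
        split_ifs
        · rw [map_add, pderiv_C, zero_add, pderiv_X_of_ne hne]
        · rw [map_add, pderiv_C, zero_add, pderiv_mul, ht, pderiv_X_of_ne (by simp),
            pderiv_X_of_ne hne, zero_mul, mul_zero, add_zero]
      rw [e, mul_zero]
    · intro h
      exact absurd (Finset.mem_univ _) h
  -- derivatives of multiples of powers of `t`
  have hd : ∀ (m : ℕ) (j : Fin n) (F : MvPolynomial (Option (Fin n)) ℂ), t ^ m ∣ F →
      t ^ m ∣ pderiv (some j) F := by
    rintro m j F ⟨G, rfl⟩
    have e : pderiv (some j) (t ^ m) = 0 := by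
      rw [pderiv_pow, ht, pderiv_X_of_ne (by simp), mul_zero]
    rw [pderiv_mul, e, zero_mul, zero_add]
    exact dvd_mul_right _ _
  -- the relation
  have hr : ∀ (m : ℕ) (i : Fin n), t ^ m ∣ φ f → t ^ m ∣ φ (pderiv i f) * φ (M I) := by
    intro m i hm
    have h1 := hrel (Fin.cons i I)
    unfold rel at h1
    rw [Fin.sum_univ_succ] at h1
    have e0 : (fun b : Fin r => (Fin.cons i I : Fin (r + 1) → Fin n)
        ((0 : Fin (r + 1)).succAbove b)) = I := by
      funext b
      rw [Fin.zero_succAbove, Fin.cons_succ]
    rw [e0] at h1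
    simp only [Fin.cons_zero, Fin.cons_succ, Fin.val_zero, pow_zero, one_mul] at h1
    have h2 := congrArg φ h1
    rw [map_add, map_zero, map_mul, map_sum] at h2
    rw [eq_neg_of_add_eq_zero_left h2]
    refine (dvd_neg).2 (Finset.dvd_sum fun a _ => ?_)
    rw [map_mul, map_mul]
    refine Dvd.dvd.mul_left (Dvd.dvd.mul_right ?_ _) _
    rw [← hs]
    exact hd m _ _ hm
  have hn : ∀ m : ℕ, t ^ m ∣ φ f → t ^ m ∣ pderiv none (φ f) * φ (M I) := by
    intro m hm
    rw [hφ, h86_chain, Finset.sum_mul]
    refine Finset.dvd_sum fun i _ => ?_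
    have e : ∀ a b c : MvPolynomial (Option (Fin n)) ℂ, a * b * c = a * c * b :=
      fun a b c => by ring
    rw [e]
    exact (hr m i hm).mul_right _
  have htM : ¬ t ∣ φ (M I) := by
    rintro ⟨G, hG⟩
    have h1 := hev 0 (M I)
    rw [hG, map_mul, ht, eval_X, Pi.zero_apply, zero_mul] at h1
    apply hα
    rw [h1]
    congr 1
    congr 1
    funext i
    simp only [hy]
    split_ifs <;> simp
  have htF : t ∣ φ f := by
    have h1 := h86_dvd (φ f)
    have h2 : aeval (fun o : Option (Fin n) => o.elim (0 : MvPolynomial (Option (Fin n)) ℂ)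
        fun i => X (some i)) (φ f) = 0 := by
      apply MvPolynomial.funext
      intro p
      have h3 : eval p (aeval (fun o : Option (Fin n) =>
          o.elim (0 : MvPolynomial (Option (Fin n)) ℂ) fun i => X (some i)) (φ f)) =
          eval (fun o : Option (Fin n) => o.elim (0 : ℂ) fun i => p (some i)) (φ f) := by
        generalize φ f = g
        induction g using MvPolynomial.induction_on with
        | C a => simp
        | add a b ha hb => simp only [map_add, ha, hb]
        | mul_X a i ha =>
          simp only [map_mul, ha, aeval_X, eval_X]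
          cases i <;> simp
      rw [h3, hev, map_zero]
      apply hcon
      intro i hi
      have hi2 : ¬ ∃ b, I b = i := fun ⟨b, hb⟩ => hi b hb
      simp only [hy]
      rw [if_neg hi2]
      simp [ht]
    rw [h2, sub_zero] at h1
    exact h1
  have hF0 : φ f ≠ 0 := by
    intro hF
    apply h0
    apply MvPolynomial.funext
    intro x
    have h1 := hev (fun o : Option (Fin n) => o.elim (1 : ℂ) fun i => x i - α i) f
    rw [hF, map_zero] at h1
    rw [map_zero, h1]
    congr 1
    congr 1
    funext i
    simp only [hy]
    split_ifs <;> simp [ht]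
  have hprime : Prime t := X_prime
  have hfin : FiniteMultiplicity t (φ f) := FiniteMultiplicity.of_not_isUnit hprime.not_isUnit hF0
  obtain ⟨G, hG, hGt⟩ := hfin.exists_eq_pow_mul_and_not_dvd
  set m := multiplicity t (φ f) with hm
  cases hm0 : m with
  | zero =>
    rw [hm0, pow_zero, one_mul] at hG
    rw [hG] at htF
    exact hGt htF
  | succ k =>
    rw [hm0] at hG
    have h1 := hn (k + 1) ⟨G, hG⟩
    rw [hG, pderiv_mul, pderiv_pow, ht, pderiv_X_self, ← ht, add_mul] at h1
    have h2 : t ^ (k + 1) ∣ t ^ (k + 1) * pderiv none G * φ (M I) :=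
      (dvd_mul_right _ _).mul_right _
    have h3 := (dvd_add_left h2).1 h1
    have e : ((k + 1 : ℕ) : MvPolynomial (Option (Fin n)) ℂ) * t ^ (k + 1 - 1) * 1 * G * φ (M I) =
        t ^ k * (((k + 1 : ℕ) : MvPolynomial (Option (Fin n)) ℂ) * (G * φ (M I))) := by
      rw [Nat.add_sub_cancel]
      ring
    rw [e, pow_succ] at h3
    have h4 := (mul_dvd_mul_iff_left (pow_ne_zero k hprime.ne_zero)).1 h3
    rcases hprime.dvd_or_dvd h4 with h5 | h5
    · obtain ⟨Q, hQ⟩ := h5
      have h6 := congrArg (eval (0 : Option (Fin n) → ℂ)) hQ
      rw [map_mul, ht, eval_X, Pi.zero_apply, zero_mul, map_natCast] at h6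
      exact Nat.cast_ne_zero.2 (Nat.succ_ne_zero k) h6
    · rcases hprime.dvd_or_dvd h5 with h6 | h6
      · exact hGt h6
      · exact htM h6

end JB
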