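import Mathlib
import Pool.Agent.Helper53.JB.Core
import Pool.Agent.Helper53.JB.Newt
import Pool.Agent.Helper61.JB.Slice
import Pool.Agent.Helper61.JB.Grid
import Pool.Agent.Helper61.JB.RelLim
import Pool.Agent.Helper61.JB.Local
import Pool.Agent.Helper61.JB.Enum
import Pool.Agent.Helper5.BD.Limit
import Pool.Agent.Helper5.BD.LimitB

/-!
# JB: the hitting property (helper61)
-/

namespace JB

open MvPolynomial AOR Filter Topology
open Pool.Agent.Helper5.BD (exists_const exists_lim exists_normalize exists_ne_zero)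

private structure Good {n : ℕ} (K w s d ρ r : ℕ) (F : MvPolynomial (Fin n) ℂ)
    (T : Fin r → MvPolynomial (Fin n) ℂ) : Prop where
  term : ∀ i, IsTerm K w s d ρ (T i)
  ne : ∀ i, T i ≠ 0
  jne : ∃ I, jac T I ≠ 0
  rl : ∀ I', rel (jac T) I' F = 0

/-- A point where all limit factors do not vanish. -/
private theorem exists_beta {n k r K w s d : ℕ} (hr : r ≤ k)
    (G : Fin r → Fin s → MvPolynomial (Fin n) ℂ)
    (hG : ∀ i j, G i j ≠ 0 ∧ (G i j).totalDegree ≤ d ∧ GP K w (G i j)) :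
    ∃ τ ≤ k * s * (d * (H₀ n K w d).card), ∀ i j,
      eval (fun l => ((newt (enum (H₀ n K w d)) τ l : ℤ) : ℂ)) (G i j) ≠ 0 := by
  obtain ⟨z, hz, h⟩ := exists_newt (ι := Fin r × Fin s) (N := k * s) (δ := d)
    (by rw [Fintype.card_prod, Fintype.card_fin, Fintype.card_fin]; exact Nat.mul_le_mul_right _ hr)
    (enum (H₀ n K w d)) (fun p => G p.1 p.2) (fun p => (hG p.1 p.2).2.1) (fun p => by
      have h1 := (hG p.1 p.2).2.2 1
      rw [pow_one, one_mul] at h1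
      obtain ⟨x, hx, hne⟩ := hits h1 (hG p.1 p.2).1 (hG p.1 p.2).2.1
      exact ⟨x, mem_enum.2 hx, hne⟩)
  rw [length_enum] at hz
  exact ⟨z, hz, fun i j => h (i, j)⟩

theorem hset_hits {n k K w s d ρ : ℕ} {f : MvPolynomial (Fin n) ℂ}
    (hf : Border k K w s d ρ f) (hd : f.totalDegree ≤ d) (h0 : f ≠ 0) :
    ∃ a ∈ hset n k K w s d ρ, eval (fun i => ((a i : ℤ) : ℂ)) f ≠ 0 := by
  classical
  obtain ⟨Fs, hFs, hlim⟩ := hf
  obtain ⟨F, hF⟩ : ∃ F : Ultrafilter ℕ, (F : Filter ℕ) ≤ atTop := ⟨Filter.hyperfilter ℕ, by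
    rw [← Nat.cofinite_eq_atTop]
    exact Filter.hyperfilter_le_cofinite⟩
  -- one r
  have hloc : ∀ t, ∃ r : Fin (k + 1), ∃ T, Good K w s d ρ (r : ℕ) (Fs t) T := by
    intro t
    obtain ⟨r, hr, T, h1, h2, h3, h4⟩ := exists_local (hFs t)
    exact ⟨⟨r, Nat.lt_succ_of_le hr⟩, T, h1, h2, h3, h4⟩
  obtain ⟨r', hr'⟩ := exists_const F _ (Eventually.of_forall hloc)
  obtain ⟨r, hr⟩ : ∃ r : ℕ, r = (r' : ℕ) := ⟨_, rfl⟩
  have hrk : r ≤ k := by rw [hr]; exact Nat.lt_succ_iff.1 r'.2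
  rw [← hr] at hr'
  obtain ⟨T, hT⟩ := hr'.choice
  -- the limits of the factors
  obtain ⟨G, hG, hcore⟩ := core (D := dgr k s d) F hrk T (hT.mono fun t ht => ht.term)
    (hT.mono fun t ht => ht.ne)
  -- the limits of the Jacobian determinants
  have hnorm : ∀ᶠ t in (F : Filter ℕ), ∃ c : ℂ,
      (∀ I m, ‖coeff m (c • jac (T t) I)‖ ≤ 1) ∧ ∃ I m, ‖coeff m (c • jac (T t) I)‖ = 1 := by
    refine hT.mono fun t ht => ?_
    obtain ⟨c, -, h1, h2⟩ := exists_normalize (fun I => jac (T t) I) ht.jne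
    exact ⟨c, h1, h2⟩
  obtain ⟨c, hc⟩ := hnorm.choice
  have hdeg : ∀ᶠ t in (F : Filter ℕ), ∀ I, (c t • jac (T t) I).totalDegree ≤ dgr k s d := by
    refine hT.mono fun t ht I => (totalDegree_smul_le _ _).trans ?_
    refine (totalDegree_jac (q := d * (s + 1)) (fun i => (ht.term i).totalDegree_le) I).trans ?_
    exact Nat.mul_le_mul_right _ hrk
  have hM : ∀ I, ∃ v : MvPolynomial (Fin n) ℂ, v.totalDegree ≤ dgr k s d ∧
      PT F (fun t => c t • jac (T t) I) v := fun I =>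
    exists_lim F (fun t => c t • jac (T t) I)
      (hdeg.mono fun t ht => ht I) (hc.mono fun t ht => ht.1 I)
  choose M hMd hM using hM
  obtain ⟨I, hI⟩ := exists_ne_zero F (fun t I => c t • jac (T t) I) M hdeg
    (hc.mono fun t ht => ht.2) hM
  have hrel : ∀ I' : Fin (r + 1) → Fin n, rel M I' f = 0 := by
    intro I'
    refine rel_limit hM (fun μ => (hlim μ).mono_left hF) I' (hT.mono fun t ht => ?_)
    rw [rel_smul, ht.rl, smul_zero]
  -- the points
  obtain ⟨τ, hτ, hβ⟩ := exists_beta hrk G hG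
  obtain ⟨m, -, hm0, hmd, hmA⟩ := hcore c I (M I)
    (by simpa only [smul_eq_C_mul] using hM I)
    (by simpa only [smul_eq_C_mul] using hdeg.mono fun t ht => ht I) (hMd I) hI _ hβ
  obtain ⟨y, hy, hym⟩ := hits hmA hm0 hmd
  obtain ⟨z, hz, hα⟩ := exists_scalar _ _ (hMd I) hym
  obtain ⟨v, hv, hvf⟩ := slice_ne_zero M f hrel _ I hα h0
  obtain ⟨e, he, hef⟩ := grid_point hd _ I hv hvf
  refine ⟨fun i => newt (enum (H₀ n K w d)) τ i +
      (z : ℤ) * y i + ∑ b, if I b = i then ((e b : ℕ) : ℤ) else 0, ?_, ?_⟩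
  · rw [hset, Finset.mem_biUnion]
    refine ⟨r, Finset.mem_range.2 (Nat.lt_succ_of_le hrk), ?_⟩
    rw [Finset.mem_image]
    refine ⟨(τ, z, y, I, fun b => ⟨e b, Nat.lt_succ_of_le (he b)⟩), ?_, rfl⟩
    simp only [Finset.mem_product, Finset.mem_range, Finset.mem_univ, and_true]
    exact ⟨Nat.lt_succ_of_le hτ, Nat.lt_succ_of_le hz, hy⟩
  · convert hef using 3
    push_cast
    rfl

end JB
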