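import Mathlib
import Pool.Agent.Helper61.JB.Card
import Pool.Agent.Helper61.JB.Poly

/-!
# JB-17: the hitting set has polynomial size

`card_hset`, `H₀_le`, `H₂_le`, `dgr_le`: with `X = n + K + s + d + ρ + 2` the factors are
`k s (d |H₀|) + 1 ≤ (k C₀ + 1) X ^ (15 w + 8)`, `dgr + 1 ≤ (k + 1) X ^ 2`, `|H₂| ≤ C₂ X ^ (45 w k + 60 k + 38)`,
`(n + 1) ^ k ≤ X ^ k`, `(d + 1) ^ k ≤ X ^ k`.
-/

namespace JB

open AOR

theorem card_poly (k w : ℕ) : ∃ C : ℕ, ∀ n K s d ρ : ℕ, (hset n k K w s d ρ).card ≤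
    C * (n + K + s + d + ρ + 2) ^ (45 * w * k + 62 * k + 15 * w + 48) := by
  obtain ⟨C₀, hC₀⟩ := H₀_le w
  obtain ⟨C₂, hC₂⟩ := H₂_le k w
  refine ⟨(k + 1) * ((k * C₀ + 1) * ((k + 1) * C₂)), fun n K s d ρ => ?_⟩
  have h0 := hC₀ n K s d ρ
  have h2 := hC₂ n K s d ρ
  have hd := dgr_le n k K s d ρ
  refine (card_hset n k K w s d ρ).trans ?_
  generalize (H₀ n K w d).card = a at h0 ⊢
  generalize (hittingSet n (dgr k s d) (rkV K w k s ρ (dgr k s d + 1))).card = b at h2 ⊢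
  generalize dgr k s d + 1 = e at hd ⊢
  have hs : s ≤ n + K + s + d + ρ + 2 := by omega
  have hd1 : d ≤ n + K + s + d + ρ + 2 := by omega
  have hn : n + 1 ≤ n + K + s + d + ρ + 2 := by omega
  have hd2 : d + 1 ≤ n + K + s + d + ρ + 2 := by omega
  have hX : 1 ≤ n + K + s + d + ρ + 2 := by omega
  generalize n + K + s + d + ρ + 2 = X at *
  have h1 : k * s * (d * a) + 1 ≤ (k * C₀ + 1) * X ^ (15 * w + 8) := by
    have h3 : 1 ≤ X ^ (15 * w + 8) := Nat.one_le_pow _ _ hX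
    calc k * s * (d * a) + 1 ≤ k * X * (X * (C₀ * X ^ (15 * w + 6))) + X ^ (15 * w + 8) :=
          Nat.add_le_add (Nat.mul_le_mul (Nat.mul_le_mul le_rfl hs) (Nat.mul_le_mul hd1 h0)) h3
      _ = (k * C₀ + 1) * X ^ (15 * w + 8) := by ring
  calc (k + 1) * ((k * s * (d * a) + 1) * (e * (b * ((n + 1) ^ k * (d + 1) ^ k))))
      ≤ (k + 1) * (((k * C₀ + 1) * X ^ (15 * w + 8)) * (((k + 1) * X ^ 2) *
        ((C₂ * X ^ (45 * w * k + 60 * k + 38)) * (X ^ k * X ^ k)))) := by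
        refine Nat.mul_le_mul le_rfl (Nat.mul_le_mul h1 (Nat.mul_le_mul hd
          (Nat.mul_le_mul h2 (Nat.mul_le_mul ?_ ?_))))
        · exact Nat.pow_le_pow_left hn k
        · exact Nat.pow_le_pow_left hd2 k
    _ = (k + 1) * ((k * C₀ + 1) * ((k + 1) * C₂)) *
        X ^ (45 * w * k + 62 * k + 15 * w + 48) := by ring

end JB
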